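import Pool.Agent.N325.DD.Stm

/-! DD/B: the limit of the sum of `g (n / m)` over `m ∈ R K n`. -/

set_option autoImplicit false

namespace Pool.Agent.N325.DD

open Finset

theorem B_filter (K n q : ℕ) (hq : 1 ≤ q) :
    (((R K n).filter (fun m => n / m = q)).card : ℝ) =
      ((R K (n / q)).card : ℝ) - ((R K (n / (q + 1))).card : ℝ) := by
  classical
  have h1 := card_filter_add_card_filter_not (s := R K (n / q)) (fun m => m ≤ n / (q + 1))
  have hle : n / (q + 1) ≤ n / q := Nat.div_le_div_left (Nat.le_succ q) hq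
  have e1 : (R K (n / q)).filter (fun m => m ≤ n / (q + 1)) = R K (n / (q + 1)) := by
    ext m
    rw [mem_filter, mem_R, mem_R]
    constructor
    · rintro ⟨⟨⟨a, b⟩, c⟩, d⟩
      exact ⟨⟨a, d⟩, c⟩
    · rintro ⟨⟨a, b⟩, c⟩
      exact ⟨⟨⟨a, b.trans hle⟩, c⟩, b⟩
  have e2 : (R K (n / q)).filter (fun m => ¬ m ≤ n / (q + 1)) = (R K n).filter (fun m => n / m = q) := by
    ext m
    rw [mem_filter, mem_filter, mem_R, mem_R]
    constructor
    · rintro ⟨⟨⟨a, b⟩, c⟩, d⟩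
      refine ⟨⟨⟨a, b.trans (Nat.div_le_self _ _)⟩, c⟩, ?_⟩
      have b' := (Nat.le_div_iff_mul_le (by omega)).1 b
      have d' : ¬ m * (q + 1) ≤ n := fun h => d ((Nat.le_div_iff_mul_le (by omega)).2 h)
      have h3 : q ≤ n / m := (Nat.le_div_iff_mul_le (by omega)).2 (by rwa [mul_comm])
      have h4 : n / m < q + 1 := (Nat.div_lt_iff_lt_mul (by omega)).2 (by
        rw [mul_comm]
        exact not_le.1 d')
      omega
    · rintro ⟨⟨⟨a, b⟩, c⟩, d⟩
      have h3 : q * m ≤ n := (Nat.le_div_iff_mul_le (by omega)).1 d.ge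
      have h4 : n < (q + 1) * m := (Nat.div_lt_iff_lt_mul (by omega)).1 (by omega)
      refine ⟨⟨⟨a, (Nat.le_div_iff_mul_le (by omega)).2 (by rwa [mul_comm])⟩, c⟩, fun h => ?_⟩
      have h5 := (Nat.le_div_iff_mul_le (by omega)).1 h
      rw [mul_comm] at h5
      omega
  rw [e1, e2] at h1
  have h2 : ((R K (n / (q + 1))).card : ℝ) + (((R K n).filter (fun m => n / m = q)).card : ℝ) =
      ((R K (n / q)).card : ℝ) := by exact_mod_cast h1
  linarith

theorem B_sum (K X : ℕ) (g : ℕ → ℕ) (hg : ∀ q, K * X ≤ q → g q = 0) (n : ℕ) :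
    ∑ m ∈ R K n, (g (n / m) : ℝ) = ∑ q ∈ Icc 1 (K * X), (g q : ℝ) *
      (((R K (n / q)).card : ℝ) - ((R K (n / (q + 1))).card : ℝ)) := by
  classical
  have h1 : ∀ m ∈ R K n, (g (n / m) : ℝ) = ∑ q ∈ Icc 1 (K * X), if n / m = q then (g q : ℝ) else 0 := by
    intro m hm
    rw [mem_R] at hm
    rw [sum_ite_eq]
    split_ifs with h
    · rfl
    · rw [mem_Icc] at h
      have h2 : 1 ≤ n / m := (Nat.one_le_div_iff (by omega)).2 hm.1.2
      have h3 : K * X ≤ n / m := by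
        by_contra h4
        exact h ⟨h2, by omega⟩
      rw [hg _ h3, Nat.cast_zero]
  rw [sum_congr rfl h1, sum_comm]
  apply sum_congr rfl
  intro q hq
  rw [mem_Icc] at hq
  rw [← B_filter K n q hq.1, ← sum_filter, sum_const, nsmul_eq_mul, mul_comm]

theorem B_lim (K q : ℕ) (hq : 1 ≤ q) (C : ℝ) (hC : ∀ y : ℕ, |((R K y).card : ℝ) - kap K * y| ≤ C) :
    Filter.Tendsto (fun n : ℕ => ((R K (n / q)).card : ℝ) / n) Filter.atTop (nhds (kap K / q)) := by
  rw [tendsto_iff_norm_sub_tendsto_zero]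
  have h0 := tendsto_const_div_atTop_nhds_zero_nat (C + |kap K|)
  refine squeeze_zero' (Filter.Eventually.of_forall fun _ => norm_nonneg _) ?_ h0
  filter_upwards [Filter.eventually_ge_atTop 1] with n hn
  have hn0 : (0 : ℝ) < n := by exact_mod_cast hn
  have hq0 : (0 : ℝ) < q := by exact_mod_cast hq
  have e1 : ((R K (n / q)).card : ℝ) / n - kap K / q =
      ((((R K (n / q)).card : ℝ) - kap K * ((n / q : ℕ) : ℝ)) + kap K * (((n / q : ℕ) : ℝ) - n / q)) / n := by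
    field_simp
    ring
  rw [e1, Real.norm_eq_abs, abs_div, abs_of_pos hn0]
  apply div_le_div_of_nonneg_right _ hn0.le
  refine (abs_add_le _ _).trans (add_le_add (hC _) ?_)
  rw [abs_mul]
  have h1 : |((n / q : ℕ) : ℝ) - n / q| ≤ 1 := by
    rw [abs_le]
    have a1 : ((n / q : ℕ) : ℝ) ≤ (n : ℝ) / q := Nat.cast_div_le
    have a2 : (n : ℝ) / q < ((n / q : ℕ) : ℝ) + 1 := by
      rw [div_lt_iff₀ hq0]
      have h2 : n < (n / q + 1) * q := by
        have := Nat.lt_div_mul_add (a := n) (b := q) (by omega)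
        rw [add_mul, one_mul]
        exact this
      exact_mod_cast h2
    constructor <;> linarith
  calc |kap K| * |((n / q : ℕ) : ℝ) - n / q| ≤ |kap K| * 1 := mul_le_mul_of_nonneg_left h1 (abs_nonneg _)
    _ = |kap K| := mul_one _

theorem sum_lim (K X : ℕ) (hK : 1 ≤ K) (g : ℕ → ℕ) (hg : ∀ q, K * X ≤ q → g q = 0)
    (hA : ∃ C : ℝ, ∀ y : ℕ, |((R K y).card : ℝ) - kap K * y| ≤ C) :
    Filter.Tendsto (fun n : ℕ => (∑ m ∈ R K n, (g (n / m) : ℝ)) / n) Filter.atTop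
      (nhds (kap K * ∑ q ∈ Finset.Icc 1 (K * X), (g q : ℝ) / ((q : ℝ) * (q + 1)))) := by
  obtain ⟨C, hC⟩ := hA
  have e1 : (fun n : ℕ => (∑ m ∈ R K n, (g (n / m) : ℝ)) / n) = fun n : ℕ =>
      ∑ q ∈ Icc 1 (K * X), (g q : ℝ) * (((R K (n / q)).card : ℝ) / n - ((R K (n / (q + 1))).card : ℝ) / n) := by
    funext n
    rw [B_sum K X g hg n, sum_div]
    apply sum_congr rfl
    intro q _
    rw [mul_div_assoc, sub_div]
  have e2 : kap K * ∑ q ∈ Finset.Icc 1 (K * X), (g q : ℝ) / ((q : ℝ) * (q + 1)) =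
      ∑ q ∈ Icc 1 (K * X), (g q : ℝ) * (kap K / q - kap K / ((q + 1 : ℕ) : ℝ)) := by
    rw [mul_sum]
    apply sum_congr rfl
    intro q hq
    rw [mem_Icc] at hq
    have hq0 : (0 : ℝ) < q := by exact_mod_cast hq.1
    push_cast
    field_simp
    ring
  rw [e1, e2]
  apply tendsto_finset_sum
  intro q hq
  rw [mem_Icc] at hq
  exact ((B_lim K q hq.1 C hC).sub (B_lim K (q + 1) (by omega) C hC)).const_mul _

end Pool.Agent.N325.DD
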